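import Pool.Agent.W172.MK.Stm

/-!
# MK-UNIF: integrals over the uniform measures
-/

set_option autoImplicit false

open MeasureTheory ProbabilityTheory Filter Topology Pool.Agent.W172.MK

namespace Pool.Agent.W103.MK

theorem unif_gen (α : Type) [Fintype α] [MeasurableSpace α] [MeasurableSingletonClass α]
    (f : α → ℝ) : ∫ x, f x ∂(unif α) = (∑ x, f x) / (Fintype.card α : ℝ) := by
  unfold unif
  rw [integral_smul_measure, integral_count, smul_eq_mul, ENNReal.toReal_inv,
    ENNReal.toReal_natCast]
  rw [div_eq_inv_mul]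

theorem card_col (n : ℕ) : (Fintype.card (Col n) : ℝ) = 2 * qq n := by
  have h : Fintype.card (Col n) = 2 * 2 ^ n := by
    simp [Col, V, ZMod.card]
  rw [h]
  unfold qq
  push_cast
  ring

theorem unif_col (n : ℕ) (f : Col n → ℝ) : ∫ g, f g ∂(unif (Col n)) = (∑ g, f g) / (2 * qq n) := by
  rw [unif_gen, card_col]

theorem unif_int : P_UNIF := by
  intro n M
  refine ⟨fun f => ?_, unif_col n, fun f hf hb => ?_⟩
  · rw [unif_gen]
    simp
  · obtain ⟨C, hC⟩ := hb
    unfold muSt
    have hint : Integrable f ((unif (Col n)).prod (muSeq M)) :=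
      Integrable.of_bound hf.aestronglyMeasurable C (Eventually.of_forall fun x => by
        rw [Real.norm_eq_abs]; exact hC x)
    rw [integral_prod f hint, unif_col]

end Pool.Agent.W103.MK
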